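import Mathlib

/-!
# Channel simulation with one ancilla qubit needs a growing number of rounds

For every `k ≥ 1` there is a channel on `ℂ^d`, `d = 3 k`, such that every protocol with one ancilla
qubit, arbitrary classical randomness, projective measurements with any number of outcomes, adaptive
unitaries and at most `R` rounds which simulates it exactly has success probability at most
`2 ^ (R + 1) / k`.

The channel has the Kraus operators `K_i (u ⊕ v) = u_i e_0 ⊕ k^(-1/2) S^i v`, `i < k`, where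
`u ∈ ℂ^k`, `v` is a polynomial of degree less than `2 k` and `S` is the multiplication by the
variable. Every nonzero combination `∑ c_i K_i` is `u ⊕ v ↦ (∑ c_i u_i) e_0 ⊕ k^(-1/2) c(S) v`, of rank
`2 k + 1`, more than `2 / 3` of `d`; the Kraus operators of every successful run are such
combinations, and so at most two outcomes of each measurement can be continued to a successful run.
Hence the successful runs have at most `2 ^ (R + 1)` Kraus operators, for fixed random choices, and
`∑_j ⟨0| K |j⟩ ⟨j| K† |0⟩` is at most one for each of them, but it is `k` for the channel.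
-/

set_option autoImplicit false

open Matrix MeasureTheory
open scoped ComplexOrder

universe u

namespace Pool.Agent.Results.MP_796113_mp.BoundedRounds

/-- operators on `ℂ^d ⊗ ℂ^2`, the input system together with the ancilla qubit -/
abbrev Op (d : ℕ) := Matrix (Fin d × Fin 2) (Fin d × Fin 2) ℂ

/-- projective measurement with `m` outcomes: projections with sum `1` (hence orthogonal) -/
structure IsPVM {d m : ℕ} (P : Fin m → Op d) : Prop where
  herm : ∀ x, (P x)ᴴ = P x
  idem : ∀ x, P x * P x = P x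
  sum : ∑ x, P x = 1

/-- What happens for fixed random choices, with at most `R` rounds: either stop and declare success
or failure, or perform the measurement `P`, then, if the outcome is `x`, the unitary `U x`, and
continue with `next x`. -/
inductive Proc (d : ℕ) : ℕ → Type
  | stop {R : ℕ} (success : Bool) : Proc d R
  | round {R : ℕ} (m : ℕ) (P U : Fin m → Op d) (next : Fin m → Proc d R) : Proc d (R + 1)

/-- all `P` are projective measurements and all `U x` are unitary -/
def Proc.Valid {d : ℕ} : {R : ℕ} → Proc d R → Prop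
  | _, .stop _ => True
  | _, .round _ P U next => IsPVM P ∧ (∀ x, U x * (U x)ᴴ = 1) ∧ ∀ x, (next x).Valid

/-- the sum of the unnormalised final states of all successful runs which start in `σ` -/
def Proc.out {d : ℕ} : {R : ℕ} → Proc d R → Op d → Op d
  | _, .stop success, σ => if success then σ else 0
  | _, .round _ P U next, σ => ∑ x, (next x).out (U x * P x * σ * (P x)ᴴ * (U x)ᴴ)

/-- `ρ ⊗ |0⟩⟨0|` -/
def attach {d : ℕ} (ρ : Matrix (Fin d) (Fin d) ℂ) : Op d :=
  fun p q => if p.2 = 0 ∧ q.2 = 0 then ρ p.1 q.1 else 0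

/-- the ancilla is discarded (partial trace) -/
def discard {d : ℕ} (σ : Op d) : Matrix (Fin d) (Fin d) ℂ := fun i j => ∑ a, σ (i, a) (j, a)

/-- A protocol with at most `R` rounds: the random choices are given by a point `ω` of a probability
space; the unitary `V ω` is applied, and then the adaptive procedure `T ω`. -/
structure Protocol (d R : ℕ) where
  Ω : Type u
  [mΩ : MeasurableSpace Ω]
  μ : Measure Ω
  [prob : IsProbabilityMeasure μ]
  V : Ω → Op d
  unitary : ∀ ω, V ω * (V ω)ᴴ = 1
  T : Ω → Proc d R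
  valid : ∀ ω, (T ω).Valid

attribute [instance] Protocol.mΩ Protocol.prob

/-- the state of the system (unnormalised, summed over all successful runs) for the random choices
`ω` and the input `ρ` -/
def Protocol.outputAt {d R : ℕ} (Q : Protocol.{u} d R) (ρ : Matrix (Fin d) (Fin d) ℂ) (ω : Q.Ω) :
    Matrix (Fin d) (Fin d) ℂ :=
  discard ((Q.T ω).out (Q.V ω * attach ρ * (Q.V ω)ᴴ))

/-- the unnormalised output: its trace is the probability of success -/
noncomputable def Protocol.output {d R : ℕ} (Q : Protocol.{u} d R)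
    (ρ : Matrix (Fin d) (Fin d) ℂ) : Matrix (Fin d) (Fin d) ℂ :=
  fun i j => ∫ ω, Q.outputAt ρ ω i j ∂Q.μ

/-- states (density matrices) -/
def IsState {d : ℕ} (ρ : Matrix (Fin d) (Fin d) ℂ) : Prop := ρ.PosSemidef ∧ ρ.trace = 1

/-- channels: completely positive trace-preserving maps, in Kraus form -/
def IsChannel {d : ℕ} (Φ : Matrix (Fin d) (Fin d) ℂ → Matrix (Fin d) (Fin d) ℂ) : Prop :=
  ∃ (r : ℕ) (K : Fin r → Matrix (Fin d) (Fin d) ℂ), ∑ i, (K i)ᴴ * K i = 1 ∧
    ∀ X, Φ X = ∑ i, K i * X * (K i)ᴴ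

/-- `Q` simulates `Φ` with success probability `q`: for every input state success occurs with
probability `q`, and conditioned on success the output state is `Φ ρ`. -/
def Simulates {d R : ℕ} (Q : Protocol.{u} d R)
    (Φ : Matrix (Fin d) (Fin d) ℂ → Matrix (Fin d) (Fin d) ℂ) (q : ℝ) : Prop :=
  0 < q ∧ ∀ ρ, IsState ρ → (∀ i j, Integrable (fun ω => Q.outputAt ρ ω i j) Q.μ) ∧
    (Q.output ρ).trace = (q : ℂ) ∧ (q : ℂ)⁻¹ • Q.output ρ = Φ ρ

/-! ### Kraus operators of the successful runs -/

/-- operators from the input system to the input system with the ancilla -/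
abbrev Amp (d : ℕ) := Matrix (Fin d × Fin 2) (Fin d) ℂ

/-- the Kraus operators of the successful runs, composed with `A` -/
def Proc.leaves {d : ℕ} : {R : ℕ} → Proc d R → Amp d → List (Amp d)
  | _, .stop success, A => if success then [A] else []
  | _, .round m P U next, A =>
      (List.ofFn fun x : Fin m => (next x).leaves (U x * P x * A)).flatten

theorem out_eq {d : ℕ} : ∀ {R : ℕ} (T : Proc d R) (A : Amp d) (X : Matrix (Fin d) (Fin d) ℂ),
    T.out (A * X * Aᴴ) = ((T.leaves A).map fun B => B * X * Bᴴ).sum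
  | _, .stop success, A, X => by
      cases success <;> simp [Proc.out, Proc.leaves]
  | _, .round m P U next, A, X => by
      simp only [Proc.out, Proc.leaves, List.map_flatten, List.sum_flatten,
        List.map_ofFn, List.sum_ofFn]
      refine Finset.sum_congr rfl fun x _ => ?_
      have h := out_eq (next x) (U x * P x * A) X
      simp only [Function.comp]
      rw [← h]
      congr 1
      simp only [conjTranspose_mul, Matrix.mul_assoc]

/-- the part of `B` with the ancilla in the state `a` -/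
def slice {d : ℕ} (B : Amp d) (a : Fin 2) : Matrix (Fin d) (Fin d) ℂ := fun i j => B (i, a) j

theorem discard_mul {d : ℕ} (B : Amp d) (X : Matrix (Fin d) (Fin d) ℂ) :
    discard (B * X * Bᴴ) = ∑ a, slice B a * X * (slice B a)ᴴ := by
  ext i j
  simp only [discard, Matrix.sum_apply, Matrix.mul_apply, slice, conjTranspose_apply]

theorem discard_sum {d : ℕ} (l : List (Op d)) : discard l.sum = (l.map discard).sum := by
  induction l with
  | nil => ext i j; simp [discard]
  | cons x l ih =>
      rw [List.sum_cons, List.map_cons, List.sum_cons, ← ih]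
      ext i j
      simp [discard, Finset.sum_add_distrib]

/-- all Kraus operators `ℂ^d → ℂ^d` of the successful runs -/
def Proc.kraus {d R : ℕ} (T : Proc d R) (A : Amp d) : List (Matrix (Fin d) (Fin d) ℂ) :=
  (T.leaves A).flatMap fun B => [slice B 0, slice B 1]

theorem discard_out {d R : ℕ} (T : Proc d R) (A : Amp d) (X : Matrix (Fin d) (Fin d) ℂ) :
    discard (T.out (A * X * Aᴴ)) = ((T.kraus A).map fun L => L * X * Lᴴ).sum := by
  rw [out_eq, discard_sum, Proc.kraus]
  induction T.leaves A with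
  | nil => simp
  | cons B l ih =>
      simp only [List.map_cons, List.sum_cons, List.flatMap_cons, List.map_append, List.sum_append,
        ih, discard_mul, Fin.sum_univ_two, List.map_nil, List.sum_nil, add_zero]

/-- the inclusion `v ↦ v ⊗ |0⟩` -/
def incl (d : ℕ) : Amp d := fun p j => if p.2 = 0 ∧ p.1 = j then 1 else 0

theorem attach_eq {d : ℕ} (ρ : Matrix (Fin d) (Fin d) ℂ) :
    attach ρ = incl d * ρ * (incl d)ᴴ := by
  ext p q
  obtain ⟨i, a⟩ := p
  obtain ⟨j, b⟩ := q
  by_cases ha : a = 0 <;> by_cases hb : b = 0 <;>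
    simp [attach, incl, Matrix.mul_apply, conjTranspose_apply, ha, hb]

theorem outputAt_eq {d R : ℕ} (Q : Protocol.{u} d R) (ρ : Matrix (Fin d) (Fin d) ℂ) (ω : Q.Ω) :
    Q.outputAt ρ ω = (((Q.T ω).kraus (Q.V ω * incl d)).map fun L => L * ρ * Lᴴ).sum := by
  rw [← discard_out, Protocol.outputAt, attach_eq]
  simp only [conjTranspose_mul, Matrix.mul_assoc]

/-! ### At most two outcomes of a measurement can be continued to a successful run -/

theorem leaves_mul {d : ℕ} : ∀ {R : ℕ} (T : Proc d R) (A B : Amp d), B ∈ T.leaves A →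
    ∃ M : Op d, B = M * A
  | _, .stop success, A, B, h => by
      cases success
      · simp [Proc.leaves] at h
      · simp only [Proc.leaves, if_true, List.mem_singleton] at h
        exact ⟨1, by rw [h, Matrix.one_mul]⟩
  | _, .round m P U next, A, B, h => by
      simp only [Proc.leaves, List.mem_flatten, List.mem_ofFn] at h
      obtain ⟨l, ⟨x, rfl⟩, hB⟩ := h
      obtain ⟨M, hM⟩ := leaves_mul (next x) _ B hB
      exact ⟨M * (U x * P x), by rw [hM]; simp only [Matrix.mul_assoc]⟩

theorem slice_mul {d : ℕ} (N : Op d) (C : Amp d) (a : Fin 2) :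
    slice (N * C) a = N.submatrix (fun i => (i, a)) id * C := by
  ext i j
  simp only [slice, Matrix.mul_apply, Matrix.submatrix_apply, id]

theorem slice_rank {d : ℕ} (M V P : Op d) (A : Amp d) (a : Fin 2) :
    (slice (M * (V * P * A)) a).rank ≤ P.rank := by
  have e : M * (V * P * A) = (M * V) * (P * A) := by simp only [Matrix.mul_assoc]
  rw [e, slice_mul]
  exact (Matrix.rank_mul_le_right _ _).trans (Matrix.rank_mul_le_left _ _)

theorem trace_eq_rank {ι : Type*} [Fintype ι] [DecidableEq ι] (P : Matrix ι ι ℂ)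
    (h : P * P = P) : P.trace = P.rank := by
  have h1 : IsIdempotentElem (Matrix.toLin' P) := by
    rw [IsIdempotentElem, Module.End.mul_eq_comp, ← Matrix.toLin'_mul, h]
  have h2 := (LinearMap.IsIdempotentElem.isProj_range _ h1).trace
  rw [Matrix.trace_toLin'_eq] at h2
  rw [h2, Matrix.rank, Matrix.toLin'_apply']

theorem card_le_two {d m r : ℕ} (P : Fin m → Op d) (h : IsPVM P) (hr : 2 * d < 3 * r) :
    (Finset.univ.filter fun x => r ≤ (P x).rank).card ≤ 2 := by
  have h1 : ∑ x, (P x).rank = 2 * d := by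
    have h2 : ((∑ x, (P x).rank : ℕ) : ℂ) = ((2 * d : ℕ) : ℂ) := by
      rw [Nat.cast_sum]
      simp only [← trace_eq_rank _ (h.idem _)]
      rw [← Matrix.trace_sum, h.sum, Matrix.trace_one]
      simp [mul_comm]
    exact_mod_cast h2
  by_contra hc
  rw [not_le] at hc
  have h3 : (Finset.univ.filter fun x => r ≤ (P x).rank).card * r ≤ ∑ x, (P x).rank := by
    calc _ = ∑ x ∈ Finset.univ.filter (fun x => r ≤ (P x).rank), r := by simp
      _ ≤ ∑ x ∈ Finset.univ.filter (fun x => r ≤ (P x).rank), (P x).rank :=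
        Finset.sum_le_sum fun x hx => (Finset.mem_filter.mp hx).2
      _ ≤ _ := Finset.sum_le_sum_of_subset (Finset.filter_subset _ _)
  have h4 : 3 * r ≤ (Finset.univ.filter fun x => r ≤ (P x).rank).card * r :=
    Nat.mul_le_mul_right r hc
  omega

/-- contractions -/
def Con {ι κ : Type*} [Fintype κ] [DecidableEq ι] (A : Matrix ι κ ℂ) : Prop :=
  (1 - A * Aᴴ).PosSemidef

theorem Con.mul {ι κ l : Type*} [Fintype ι] [Fintype κ] [Fintype l] [DecidableEq ι] [DecidableEq κ]
    {A : Matrix ι κ ℂ} {B : Matrix κ l ℂ} (hA : Con A) (hB : Con B) : Con (A * B) := by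
  have h := hA.add (hB.mul_mul_conjTranspose_same A)
  have e : (1 - A * Aᴴ) + A * (1 - B * Bᴴ) * Aᴴ = 1 - A * B * (A * B)ᴴ := by
    rw [conjTranspose_mul, Matrix.mul_sub, Matrix.sub_mul, Matrix.mul_one]
    simp only [Matrix.mul_assoc]
    abel
  rw [e] at h
  exact h

theorem con_unitary {d : ℕ} {U : Op d} (h : U * Uᴴ = 1) : Con U := by
  rw [Con, h, sub_self]
  exact Matrix.PosSemidef.zero

theorem con_proj {d : ℕ} {P : Op d} (h1 : Pᴴ = P) (h2 : P * P = P) : Con P := by
  have h := Matrix.posSemidef_self_mul_conjTranspose (1 - P)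
  have e : (1 - P) * (1 - P)ᴴ = 1 - P * Pᴴ := by
    rw [conjTranspose_sub, conjTranspose_one, h1, Matrix.mul_sub, Matrix.sub_mul, Matrix.sub_mul, h2]
    simp
  rw [e] at h
  exact h

theorem Con.row {ι κ : Type*} [Fintype ι] [Fintype κ] [DecidableEq ι] {A : Matrix ι κ ℂ}
    (h : Con A) (i : ι) : ∑ j, ‖A i j‖ ^ 2 ≤ 1 := by
  have h1 := h.diag_nonneg (i := i)
  rw [Matrix.sub_apply, Matrix.one_apply_eq, Matrix.mul_apply] at h1
  have h2 : ∑ j, A i j * Aᴴ j i = ((∑ j, ‖A i j‖ ^ 2 : ℝ) : ℂ) := by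
    push_cast
    refine Finset.sum_congr rfl fun j _ => ?_
    rw [conjTranspose_apply]
    exact Complex.mul_conj' _
  rw [h2] at h1
  have h3 : (0 : ℝ) ≤ 1 - ∑ j, ‖A i j‖ ^ 2 := by
    have h4 : (0 : ℂ) ≤ ((1 - ∑ j, ‖A i j‖ ^ 2 : ℝ) : ℂ) := by
      push_cast at h1 ⊢
      exact h1
    exact_mod_cast h4
  linarith

theorem con_incl (d : ℕ) : Con (incl d) := by
  have e : (1 : Op d) - incl d * (incl d)ᴴ =
      Matrix.diagonal fun p : Fin d × Fin 2 => if p.2 = 1 then (1 : ℂ) else 0 := by
    ext p q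
    obtain ⟨i, a⟩ := p
    obtain ⟨j, b⟩ := q
    rw [Matrix.sub_apply, Matrix.mul_apply, Matrix.one_apply, Matrix.diagonal_apply]
    simp only [incl, conjTranspose_apply, Prod.mk.injEq]
    fin_cases a <;> fin_cases b <;> by_cases hij : i = j <;> simp [hij]
  rw [Con, e, Matrix.posSemidef_diagonal_iff]
  intro p
  split_ifs <;> simp

/-- the sum of the squares of the entries in the row `i` of all Kraus operators -/
noncomputable def rowSum {d : ℕ} (l : List (Matrix (Fin d) (Fin d) ℂ)) (i : Fin d) : ℝ :=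
  (l.map fun L => ∑ j, ‖L i j‖ ^ 2).sum

theorem rowSum_bound {d r : ℕ} (hr : 2 * d < 3 * r) (i : Fin d) : ∀ {R : ℕ} (T : Proc d R)
    (A : Amp d), T.Valid → Con A → (∀ L ∈ T.kraus A, L = 0 ∨ r ≤ L.rank) →
    rowSum (T.kraus A) i ≤ 2 ^ (R + 1)
  | R, .stop success, A, hT, hA, hL => by
      cases success
      · simp [Proc.kraus, Proc.leaves, rowSum]
      · have h0 := hA.row (i, 0)
        have h1 := hA.row (i, 1)
        have h2 : (2 : ℝ) ≤ 2 ^ (R + 1) := by
          calc (2 : ℝ) = 2 ^ 1 := by norm_num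
            _ ≤ 2 ^ (R + 1) := pow_le_pow_right₀ (by norm_num) (by omega)
        simp only [Proc.kraus, Proc.leaves, if_true, List.flatMap_cons, List.flatMap_nil,
          List.append_nil, rowSum, List.map_cons, List.map_nil, List.sum_cons, List.sum_nil, slice]
        linarith
  | _, .round (R := R) m P U next, A, hT, hA, hL => by
      obtain ⟨hP, hU, hN⟩ := hT
      have e : rowSum ((Proc.round m P U next).kraus A) i =
          ∑ x, rowSum ((next x).kraus (U x * P x * A)) i := by
        simp only [Proc.kraus, Proc.leaves, rowSum, List.flatMap_def, List.map_flatten,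
          List.flatten_flatten, List.sum_flatten, List.map_map, List.map_ofFn, List.sum_ofFn]
        refine Finset.sum_congr rfl fun x _ => ?_
        simp only [Function.comp_def, List.map_flatten, List.sum_flatten, List.map_map]
      have hmem : ∀ x, ∀ L ∈ (next x).kraus (U x * P x * A),
          L ∈ (Proc.round m P U next).kraus A := by
        intro x L h
        simp only [Proc.kraus, Proc.leaves, List.mem_flatMap, List.mem_flatten, List.mem_ofFn] at h ⊢
        obtain ⟨B, hB, h⟩ := h
        exact ⟨B, ⟨_, ⟨x, rfl⟩, hB⟩, h⟩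
      have hx : ∀ x, rowSum ((next x).kraus (U x * P x * A)) i ≤
          if r ≤ (P x).rank then 2 ^ (R + 1) else 0 := by
        intro x
        split_ifs with h
        · exact rowSum_bound hr i (next x) _ (hN x)
            (((con_unitary (hU x)).mul (con_proj (hP.herm x) (hP.idem x))).mul hA)
            fun L h => hL L (hmem x L h)
        · have h0 : ∀ L ∈ (next x).kraus (U x * P x * A), L = 0 := by
            intro L h1
            rcases hL L (hmem x L h1) with h2 | h2
            · exact h2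
            · exfalso
              simp only [Proc.kraus, List.mem_flatMap] at h1
              obtain ⟨B, hB, h1⟩ := h1
              obtain ⟨M, rfl⟩ := leaves_mul _ _ _ hB
              have h3 : L.rank ≤ (P x).rank := by
                simp only [List.mem_cons, List.not_mem_nil, or_false] at h1
                rcases h1 with rfl | rfl <;> exact slice_rank _ _ _ _ _
              omega
          have h4 : rowSum ((next x).kraus (U x * P x * A)) i = 0 := by
            rw [rowSum]
            apply List.sum_eq_zero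
            intro y hy
            obtain ⟨L, h5, rfl⟩ := List.mem_map.mp hy
            rw [h0 L h5]
            simp
          rw [h4]
      rw [e]
      calc _ ≤ ∑ x, (if r ≤ (P x).rank then (2 : ℝ) ^ (R + 1) else 0) :=
            Finset.sum_le_sum fun x _ => hx x
        _ = ((Finset.univ.filter fun x => r ≤ (P x).rank).card : ℝ) * 2 ^ (R + 1) := by
            rw [← Finset.sum_filter, Finset.sum_const, nsmul_eq_mul]
        _ ≤ 2 * 2 ^ (R + 1) := by
            have := card_le_two P hP hr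
            gcongr
            exact_mod_cast this
        _ = 2 ^ (R + 1 + 1) := by ring

/-! ### The output on all matrices -/

section extension

variable {d R : ℕ} (Q : Protocol.{u} d R)
  (Φ : Matrix (Fin d) (Fin d) ℂ → Matrix (Fin d) (Fin d) ℂ) (q : ℝ)

/-- the simulation identity for the matrix `X` -/
def Good (X : Matrix (Fin d) (Fin d) ℂ) : Prop :=
  ∀ i j, Integrable (fun ω => Q.outputAt X ω i j) Q.μ ∧
    ∫ ω, Q.outputAt X ω i j ∂Q.μ = q * Φ X i j

theorem outputAt_add (X Y : Matrix (Fin d) (Fin d) ℂ) (ω : Q.Ω) :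
    Q.outputAt (X + Y) ω = Q.outputAt X ω + Q.outputAt Y ω := by
  rw [outputAt_eq, outputAt_eq, outputAt_eq, ← List.sum_map_add]
  simp only [Matrix.mul_add, Matrix.add_mul]

theorem outputAt_smul (c : ℂ) (X : Matrix (Fin d) (Fin d) ℂ) (ω : Q.Ω) :
    Q.outputAt (c • X) ω = c • Q.outputAt X ω := by
  rw [outputAt_eq, outputAt_eq, List.smul_sum, List.map_map]
  simp only [Matrix.mul_smul, Matrix.smul_mul, Function.comp_def]

variable {Q Φ q}

theorem Good.add (hΦ : ∀ X Y, Φ (X + Y) = Φ X + Φ Y) {X Y : Matrix (Fin d) (Fin d) ℂ}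
    (hX : Good Q Φ q X) (hY : Good Q Φ q Y) : Good Q Φ q (X + Y) := by
  intro i j
  simp only [outputAt_add, hΦ, Matrix.add_apply, mul_add]
  refine ⟨(hX i j).1.add (hY i j).1, ?_⟩
  rw [integral_add (hX i j).1 (hY i j).1, (hX i j).2, (hY i j).2]

theorem Good.smul (hΦ : ∀ (c : ℂ) X, Φ (c • X) = c • Φ X) {X : Matrix (Fin d) (Fin d) ℂ}
    (hX : Good Q Φ q X) (c : ℂ) : Good Q Φ q (c • X) := by
  intro i j
  simp only [outputAt_smul, hΦ, Matrix.smul_apply, smul_eq_mul]
  refine ⟨(hX i j).1.const_mul c, ?_⟩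
  rw [integral_const_mul, (hX i j).2]
  ring

theorem Good.zero (hΦ : ∀ (c : ℂ) X, Φ (c • X) = c • Φ X) : Good Q Φ q 0 := by
  have h1 : Φ 0 = 0 := by
    have := hΦ 0 0
    simpa using this
  intro i j
  have h2 : ∀ ω, Q.outputAt 0 ω = 0 := by
    intro ω
    have := outputAt_smul Q 0 0 ω
    simpa using this
  simp [h1, h2]

theorem good_vec (hΦ : ∀ (c : ℂ) X, Φ (c • X) = c • Φ X) (h : Simulates Q Φ q) (u : Fin d → ℂ) :
    Good Q Φ q (vecMulVec u (star u)) := by
  by_cases hu : u = 0
  · rw [hu, Matrix.zero_vecMulVec]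
    exact Good.zero hΦ
  have ht : (vecMulVec u (star u)).trace = ((∑ j, ‖u j‖ ^ 2 : ℝ) : ℂ) := by
    simp only [Matrix.trace, Matrix.diag_apply, Matrix.vecMulVec_apply, Pi.star_apply]
    push_cast
    refine Finset.sum_congr rfl fun j _ => ?_
    exact Complex.mul_conj' _
  have hc : 0 < ∑ j, ‖u j‖ ^ 2 := by
    obtain ⟨j, hj⟩ := Function.ne_iff.mp hu
    refine Finset.sum_pos' (fun _ _ => by positivity) ⟨j, Finset.mem_univ _, ?_⟩
    have : 0 < ‖u j‖ := norm_pos_iff.mpr hj
    positivity
  set c : ℝ := ∑ j, ‖u j‖ ^ 2 with hcd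
  have hc' : (c : ℂ) ≠ 0 := by exact_mod_cast hc.ne'
  have hs : IsState (((c⁻¹ : ℝ) : ℂ) • vecMulVec u (star u)) := by
    refine ⟨?_, ?_⟩
    · exact (Matrix.posSemidef_vecMulVec_self_star u).smul (by
        have : (0 : ℝ) ≤ c⁻¹ := by positivity
        exact_mod_cast this)
    · rw [Matrix.trace_smul, ht, smul_eq_mul]
      push_cast
      exact inv_mul_cancel₀ hc'
  have hg : Good Q Φ q (((c⁻¹ : ℝ) : ℂ) • vecMulVec u (star u)) := by
    obtain ⟨hq, h⟩ := h
    obtain ⟨h1, -, h3⟩ := h _ hs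
    intro i j
    refine ⟨h1 i j, ?_⟩
    rw [← h3, Matrix.smul_apply, smul_eq_mul, ← mul_assoc, mul_inv_cancel₀, one_mul]
    · rfl
    · exact_mod_cast hq.ne'
  have := Good.smul hΦ hg (c : ℂ)
  rw [smul_smul] at this
  have e : (c : ℂ) * ((c⁻¹ : ℝ) : ℂ) = 1 := by
    push_cast
    exact mul_inv_cancel₀ hc'
  rwa [e, one_smul] at this

theorem single_eq (j j' : Fin d) : (Matrix.single j j' 1 : Matrix (Fin d) (Fin d) ℂ) =
    (4 : ℂ)⁻¹ • (vecMulVec (Pi.single j 1 + Pi.single j' 1) (star (Pi.single j 1 + Pi.single j' 1)) +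
      ((-1 : ℂ) • vecMulVec (Pi.single j 1 + (-1 : ℂ) • Pi.single j' 1)
        (star (Pi.single j 1 + (-1 : ℂ) • Pi.single j' 1)) +
      (Complex.I • vecMulVec (Pi.single j 1 + Complex.I • Pi.single j' 1)
        (star (Pi.single j 1 + Complex.I • Pi.single j' 1)) +
      (-Complex.I) • vecMulVec (Pi.single j 1 + (-Complex.I) • Pi.single j' 1)
        (star (Pi.single j 1 + (-Complex.I) • Pi.single j' 1))))) := by
  ext a b
  simp only [Matrix.smul_apply, Matrix.add_apply, Matrix.vecMulVec_apply, Pi.star_apply,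
    Pi.add_apply, Pi.smul_apply, smul_eq_mul, star_add, star_mul', Matrix.single_apply]
  by_cases h1 : j = a <;> by_cases h2 : j' = b <;> by_cases h3 : j = b <;> by_cases h4 : j' = a <;>
    simp_all [eq_comm] <;> ring_nf

theorem good_single (hΦ : ∀ (c : ℂ) X, Φ (c • X) = c • Φ X) (hΦ' : ∀ X Y, Φ (X + Y) = Φ X + Φ Y)
    (h : Simulates Q Φ q) (j j' : Fin d) : Good Q Φ q (Matrix.single j j' 1) := by
  rw [single_eq]
  exact Good.smul hΦ (Good.add hΦ' (good_vec hΦ h _) (Good.add hΦ' (Good.smul hΦ (good_vec hΦ h _) _)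
    (Good.add hΦ' (Good.smul hΦ (good_vec hΦ h _) _) (Good.smul hΦ (good_vec hΦ h _) _)))) _

end extension

/-! ### Quadratic functionals of the Kraus operators of the successful runs -/

/-- a linear functional on matrices -/
def fn {d : ℕ} (F L : Matrix (Fin d) (Fin d) ℂ) : ℂ := ∑ z : Fin d × Fin d, F z.1 z.2 * L z.1 z.2

/-- the sum of the values of its squared modulus -/
noncomputable def sq {d : ℕ} (F : Matrix (Fin d) (Fin d) ℂ) (l : List (Matrix (Fin d) (Fin d) ℂ)) :
    ℝ := (l.map fun L => ‖fn F L‖ ^ 2).sum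

/-- the matrix units -/
abbrev E {d : ℕ} (j j' : Fin d) : Matrix (Fin d) (Fin d) ℂ := Matrix.single j j' 1

theorem mul_single_mul {d : ℕ} (L : Matrix (Fin d) (Fin d) ℂ) (j j' p p' : Fin d) :
    (L * E j j' * Lᴴ) p p' = L p j * star (L p' j') := by
  rw [Matrix.mul_apply]
  simp only [Matrix.mul_apply, Matrix.single_apply, conjTranspose_apply, ite_and, mul_ite, mul_one,
    mul_zero, Finset.sum_ite_eq, Finset.mem_univ, if_true, ite_mul, zero_mul]

theorem fn_sq {d : ℕ} (F L : Matrix (Fin d) (Fin d) ℂ) :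
    ((‖fn F L‖ ^ 2 : ℝ) : ℂ) = ∑ z : Fin d × Fin d, ∑ z' : Fin d × Fin d,
      F z.1 z.2 * star (F z'.1 z'.2) * (L * E z.2 z'.2 * Lᴴ) z.1 z'.1 := by
  have h : ((‖fn F L‖ ^ 2 : ℝ) : ℂ) = fn F L * star (fn F L) := by
    push_cast
    exact (Complex.mul_conj' _).symm
  rw [h, fn, star_sum, Finset.sum_mul_sum]
  refine Finset.sum_congr rfl fun z _ => Finset.sum_congr rfl fun z' _ => ?_
  rw [mul_single_mul, star_mul']
  ring

theorem sq_eq {d : ℕ} (F : Matrix (Fin d) (Fin d) ℂ) (l : List (Matrix (Fin d) (Fin d) ℂ)) :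
    (sq F l : ℂ) = ∑ z : Fin d × Fin d, ∑ z' : Fin d × Fin d,
      F z.1 z.2 * star (F z'.1 z'.2) *
        ((l.map fun L => L * E z.2 z'.2 * Lᴴ).sum) z.1 z'.1 := by
  induction l with
  | nil => simp [sq]
  | cons L l ih =>
      have e : (sq F (L :: l) : ℂ) = ((‖fn F L‖ ^ 2 : ℝ) : ℂ) + sq F l := by
        simp only [sq, List.map_cons, List.sum_cons]
        push_cast
        rfl
      rw [e, ih, fn_sq, ← Finset.sum_add_distrib]
      refine Finset.sum_congr rfl fun z _ => ?_
      rw [← Finset.sum_add_distrib]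
      refine Finset.sum_congr rfl fun z' _ => ?_
      rw [List.map_cons, List.sum_cons, Matrix.add_apply]
      ring

theorem key {d R r : ℕ} (Q : Protocol.{u} d R) (K : Fin r → Matrix (Fin d) (Fin d) ℂ) (q : ℝ)
    (h : Simulates Q (fun X => ∑ i, K i * X * (K i)ᴴ) q) (F : Matrix (Fin d) (Fin d) ℂ) :
    Integrable (fun ω => sq F ((Q.T ω).kraus (Q.V ω * incl d))) Q.μ ∧
      ∫ ω, sq F ((Q.T ω).kraus (Q.V ω * incl d)) ∂Q.μ = q * ∑ i, ‖fn F (K i)‖ ^ 2 := by
  have hΦ : ∀ (c : ℂ) (X : Matrix (Fin d) (Fin d) ℂ),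
      (fun X => ∑ i, K i * X * (K i)ᴴ) (c • X) = c • (fun X => ∑ i, K i * X * (K i)ᴴ) X := by
    intro c X
    simp only [Matrix.mul_smul, Matrix.smul_mul, Finset.smul_sum]
  have hΦ' : ∀ (X Y : Matrix (Fin d) (Fin d) ℂ),
      (fun X => ∑ i, K i * X * (K i)ᴴ) (X + Y) =
        (fun X => ∑ i, K i * X * (K i)ᴴ) X + (fun X => ∑ i, K i * X * (K i)ᴴ) Y := by
    intro X Y
    simp only [Matrix.mul_add, Matrix.add_mul, Finset.sum_add_distrib]
  have hg := fun j j' => good_single hΦ hΦ' h j j'
  have e : ∀ ω, ((sq F ((Q.T ω).kraus (Q.V ω * incl d)) : ℝ) : ℂ) =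
      ∑ z : Fin d × Fin d, ∑ z' : Fin d × Fin d, F z.1 z.2 * star (F z'.1 z'.2) *
        Q.outputAt (E z.2 z'.2) ω z.1 z'.1 := by
    intro ω
    simp only [sq_eq, outputAt_eq]
  have hi : ∀ z z' : Fin d × Fin d, Integrable (fun ω => F z.1 z.2 * star (F z'.1 z'.2) *
        Q.outputAt (E z.2 z'.2) ω z.1 z'.1) Q.μ := fun z z' =>
    (hg z.2 z'.2 z.1 z'.1).1.const_mul _
  have h1 : Integrable (fun ω => ((sq F ((Q.T ω).kraus (Q.V ω * incl d)) : ℝ) : ℂ)) Q.μ := by
    simp only [e]
    exact integrable_finsetSum _ fun z _ => integrable_finsetSum _ fun z' _ => hi z z'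
  refine ⟨by simpa using h1.re, ?_⟩
  have h2 : ∫ ω, ((sq F ((Q.T ω).kraus (Q.V ω * incl d)) : ℝ) : ℂ) ∂Q.μ =
      ((q * ∑ i, ‖fn F (K i)‖ ^ 2 : ℝ) : ℂ) := by
    simp only [e]
    rw [integral_finsetSum _ fun z _ => integrable_finsetSum _ fun z' _ => hi z z']
    have h3 : ((q * ∑ i, ‖fn F (K i)‖ ^ 2 : ℝ) : ℂ) =
        ∑ z : Fin d × Fin d, ∑ z' : Fin d × Fin d, F z.1 z.2 * star (F z'.1 z'.2) *
          (q * (∑ i, K i * E z.2 z'.2 * (K i)ᴴ) z.1 z'.1) := by
      rw [Complex.ofReal_mul, Complex.ofReal_sum]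
      simp only [fn_sq]
      rw [Finset.sum_comm, Finset.mul_sum]
      refine Finset.sum_congr rfl fun z _ => ?_
      rw [Finset.sum_comm, Finset.mul_sum]
      refine Finset.sum_congr rfl fun z' _ => ?_
      rw [← Finset.mul_sum, Matrix.sum_apply]
      ring
    rw [h3]
    refine Finset.sum_congr rfl fun z _ => ?_
    rw [integral_finsetSum _ fun z' _ => hi z z']
    refine Finset.sum_congr rfl fun z' _ => ?_
    rw [integral_const_mul, (hg z.2 z'.2 z.1 z'.1).2]
  have h4 : ∫ ω, ((sq F ((Q.T ω).kraus (Q.V ω * incl d)) : ℝ) : ℂ) ∂Q.μ =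
      ((∫ ω, sq F ((Q.T ω).kraus (Q.V ω * incl d)) ∂Q.μ : ℝ) : ℂ) := integral_ofReal
  rw [h4] at h2
  exact_mod_cast h2

/-! ### The channel -/

/-- the Kraus operators `K_i (u ⊕ v) = u_i e_0 ⊕ k^(-1/2) S^i v` of the channel -/
noncomputable def K (k : ℕ) (i : Fin k) : Matrix (Fin (3 * k)) (Fin (3 * k)) ℂ := fun a j =>
  if j.1 < k then (if j.1 = i.1 ∧ a.1 = 0 then 1 else 0)
  else (if a.1 + k = 1 + j.1 + i.1 then ((√(k : ℝ) : ℝ) : ℂ)⁻¹ else 0)

theorem K_sum (k : ℕ) (hk : 1 ≤ k) : ∑ i, (K k i)ᴴ * K k i = 1 := by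
  ext j j'
  rw [Matrix.sum_apply]
  simp only [Matrix.mul_apply, conjTranspose_apply]
  have hs : ((√(k : ℝ) : ℝ) : ℂ)⁻¹ * ((√(k : ℝ) : ℝ) : ℂ)⁻¹ = (k : ℂ)⁻¹ := by
    rw [← mul_inv, ← Complex.ofReal_mul, Real.mul_self_sqrt (by positivity)]
    simp
  have hk0 : (k : ℂ) ≠ 0 := by
    exact_mod_cast (by omega : k ≠ 0)
  by_cases hj : j.1 < k
  · by_cases hj' : j'.1 < k
    · have h : ∀ i : Fin k, ∑ a, star (K k i a j) * K k i a j' =
          if i = ⟨j.1, hj⟩ then (if j = j' then 1 else 0) else 0 := by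
        intro i
        rw [Finset.sum_eq_single (⟨0, by omega⟩ : Fin (3 * k))]
        · simp only [K, hj, hj', if_true, and_true]
          by_cases h1 : i = ⟨j.1, hj⟩
          · subst h1
            simp [Fin.ext_iff, eq_comm]
          · have h2 : ¬ (j.1 = i.1) := fun h => h1 (Fin.ext h.symm)
            simp [h1, h2]
        · intro a _ ha
          have h2 : ¬ (a.1 = 0) := fun h => ha (Fin.ext h)
          simp [K, hj, hj', h2]
        · simp
      simp only [h, Finset.sum_ite_eq', Finset.mem_univ, if_true, Matrix.one_apply]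
    · have hne : j ≠ j' := by
        rintro rfl
        exact hj' hj
      rw [Matrix.one_apply_ne hne]
      refine Finset.sum_eq_zero fun i _ => Finset.sum_eq_zero fun a _ => ?_
      simp only [K, hj, hj', if_true, if_false]
      by_cases h1 : a.1 = 0
      · have h2 : ¬ (a.1 + k = 1 + j'.1 + i.1) := by omega
        simp [h2]
      · simp [h1]
  · by_cases hj' : j'.1 < k
    · have hne : j ≠ j' := by
        rintro rfl
        exact hj hj'
      rw [Matrix.one_apply_ne hne]
      refine Finset.sum_eq_zero fun i _ => Finset.sum_eq_zero fun a _ => ?_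
      simp only [K, hj, hj', if_true, if_false]
      by_cases h1 : a.1 = 0
      · have h2 : ¬ (a.1 + k = 1 + j.1 + i.1) := by omega
        simp [h2]
      · simp [h1]
    · have h : ∀ i : Fin k, ∑ a, star (K k i a j) * K k i a j' =
          if j = j' then (k : ℂ)⁻¹ else 0 := by
        intro i
        rw [Finset.sum_eq_single (⟨1 + j.1 + i.1 - k, by omega⟩ : Fin (3 * k))]
        · simp only [K, hj, hj', if_false]
          have h1 : 1 + j.1 + i.1 - k + k = 1 + j.1 + i.1 := by omega
          by_cases h2 : j = j'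
          · subst h2
            simp [h1, hs]
          · have h3 : ¬ (1 + j.1 + i.1 - k + k = 1 + j'.1 + i.1) := by
              intro h3
              exact h2 (Fin.ext (by omega))
            simp [h2, h3]
        · intro a _ ha
          have h2 : ¬ (a.1 + k = 1 + j.1 + i.1) := fun h => ha (Fin.ext (by simp; omega))
          simp [K, hj, h2]
        · simp
      simp only [h, Finset.sum_const, Finset.card_univ, Fintype.card_fin, nsmul_eq_mul]
      by_cases h2 : j = j'
      · subst h2
        simp [hk0]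
      · simp [h2]

/-- a nonzero combination of the Kraus operators has rank at least `2 k + 1` -/
theorem rank_comb (k : ℕ) (c : Fin k → ℂ) (hc : c ≠ 0) :
    2 * k + 1 ≤ (∑ i, c i • K k i).rank := by
  have hk : 0 < k := by
    rcases Nat.eq_zero_or_pos k with h | h
    · subst h
      exact absurd (Subsingleton.elim c 0) hc
    · exact h
  have hex : (Finset.univ.filter fun i => c i ≠ 0).Nonempty := by
    obtain ⟨i, hi⟩ := Function.ne_iff.mp hc
    exact ⟨i, by simpa using hi⟩
  obtain ⟨i0, hi0, hmin⟩ : ∃ i0, c i0 ≠ 0 ∧ ∀ i, i < i0 → c i = 0 := by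
    refine ⟨(Finset.univ.filter fun i => c i ≠ 0).min' hex, ?_, ?_⟩
    · exact (Finset.mem_filter.mp (Finset.min'_mem _ hex)).2
    · intro i hi
      by_contra h
      exact absurd (Finset.min'_le _ i (by simpa using h)) (not_le.mpr hi)
  set L := ∑ i, c i • K k i with hL
  have hs : ((√(k : ℝ) : ℝ) : ℂ)⁻¹ ≠ 0 := by
    rw [Ne, inv_eq_zero, Complex.ofReal_eq_zero]
    have : (0 : ℝ) < k := by exact_mod_cast hk
    positivity
  let ρ : Fin (2 * k + 1) → Fin (3 * k) := Fin.cons ⟨0, by omega⟩ fun t => ⟨1 + t.1 + i0.1, by omega⟩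
  let γ : Fin (2 * k + 1) → Fin (3 * k) := Fin.cons ⟨i0.1, by omega⟩ fun t => ⟨k + t.1, by omega⟩
  have hsub : (L.submatrix ρ γ).det ≠ 0 := by
    rw [Matrix.det_of_isLowerTriangular]
    · rw [Finset.prod_ne_zero_iff]
      intro x _
      refine Fin.cases ?_ (fun t => ?_) x
      · have : L.submatrix ρ γ 0 0 = c i0 := by
          simp only [Matrix.submatrix_apply, ρ, γ, Fin.cons_zero, hL, Matrix.sum_apply,
            Matrix.smul_apply, smul_eq_mul, K, Fin.is_lt, if_true, and_true]
          rw [Finset.sum_eq_single i0]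
          · simp
          · intro i _ hi
            have : ¬ (i0.1 = i.1) := fun h => hi (Fin.ext h.symm)
            simp [this]
          · simp
        rw [this]
        exact hi0
      · have : L.submatrix ρ γ t.succ t.succ = c i0 * ((√(k : ℝ) : ℝ) : ℂ)⁻¹ := by
          simp only [Matrix.submatrix_apply, ρ, γ, Fin.cons_succ, hL, Matrix.sum_apply,
            Matrix.smul_apply, smul_eq_mul, K]
          rw [Finset.sum_eq_single i0]
          · rw [if_neg (by omega), if_pos (by omega)]
          · intro i _ hi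
            have h1 : ¬ (i0.1 = i.1) := fun h => hi (Fin.ext h.symm)
            rw [if_neg (by omega), if_neg (by omega), mul_zero]
          · simp
        rw [this]
        exact mul_ne_zero hi0 hs
    · intro x y hxy
      have hxy' : x < y := hxy
      revert hxy'
      refine Fin.cases ?_ (fun s => ?_) x
      · refine Fin.cases ?_ (fun t => ?_) y
        · intro h
          exact absurd h (lt_irrefl _)
        · intro _
          simp only [Matrix.submatrix_apply, ρ, γ, Fin.cons_zero, Fin.cons_succ, hL,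
            Matrix.sum_apply, Matrix.smul_apply, smul_eq_mul, K]
          refine Finset.sum_eq_zero fun i _ => ?_
          rw [if_neg (by omega), if_neg (by omega), mul_zero]
      · refine Fin.cases ?_ (fun t => ?_) y
        · intro h
          exact absurd h (by simp)
        · intro h
          have h' : s.1 < t.1 := by
            have := Fin.succ_lt_succ_iff.mp h
            exact this
          simp only [Matrix.submatrix_apply, ρ, γ, Fin.cons_succ, hL, Matrix.sum_apply,
            Matrix.smul_apply, smul_eq_mul, K]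
          refine Finset.sum_eq_zero fun i _ => ?_
          rw [if_neg (by omega)]
          by_cases h1 : 1 + s.1 + i0.1 + k = 1 + (k + t.1) + i.1
          · rw [hmin i (by rw [Fin.lt_def]; omega), zero_mul]
          · rw [if_neg h1, mul_zero]
  have h1 : (L.submatrix ρ γ).rank = 2 * k + 1 := by
    rw [Matrix.rank_of_isUnit _ ((Matrix.isUnit_iff_isUnit_det _).mpr (isUnit_iff_ne_zero.mpr hsub))]
    simp
  have h2 : L.submatrix ρ γ =
      (1 : Matrix (Fin (3 * k)) (Fin (3 * k)) ℂ).submatrix ρ id * L *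
        (1 : Matrix (Fin (3 * k)) (Fin (3 * k)) ℂ).submatrix id γ := by
    ext x y
    simp [Matrix.mul_apply, Matrix.one_apply]
  rw [← h1, h2]
  exact (Matrix.rank_mul_le_left _ _).trans (Matrix.rank_mul_le_right _ _)

/-! ### The bound -/

theorem fn_sub {d : ℕ} (F G L : Matrix (Fin d) (Fin d) ℂ) : fn (F - G) L = fn F L - fn G L := by
  simp only [fn, Matrix.sub_apply, sub_mul, Finset.sum_sub_distrib]

theorem fn_sum {d r : ℕ} (c : Fin r → ℂ) (F : Fin r → Matrix (Fin d) (Fin d) ℂ)
    (L : Matrix (Fin d) (Fin d) ℂ) : fn (∑ i, c i • F i) L = ∑ i, c i * fn (F i) L := by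
  simp only [fn, Matrix.sum_apply, Matrix.smul_apply, smul_eq_mul, Finset.sum_mul, Finset.mul_sum]
  rw [Finset.sum_comm]
  simp only [mul_assoc]

theorem fn_E {d : ℕ} (a j : Fin d) (L : Matrix (Fin d) (Fin d) ℂ) : fn (E a j) L = L a j := by
  rw [fn, Finset.sum_eq_single (a, j)]
  · simp
  · intro z _ hz
    have : ¬ (a = z.1 ∧ j = z.2) := fun h => hz (Prod.ext h.1.symm h.2.symm)
    rw [E, Matrix.single_apply, if_neg this, zero_mul]
  · simp

theorem K_zero (k : ℕ) (i i' : Fin k) :
    K k i ⟨0, by have := i.2; omega⟩ ⟨i'.1, by omega⟩ = if i' = i then 1 else 0 := by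
  simp only [K, Fin.is_lt, if_true, and_true]
  by_cases h : i' = i
  · simp [h]
  · have h' : ¬ (i'.1 = i.1) := fun h1 => h (Fin.ext h1)
    simp [h, h']

theorem bound {k R : ℕ} (hk : 1 ≤ k) (Q : Protocol.{u} (3 * k) R) (q : ℝ)
    (h : Simulates Q (fun X => ∑ i, K k i * X * (K k i)ᴴ) q) : q * k ≤ 2 ^ (R + 1) := by
  let z : Fin (3 * k) := ⟨0, by omega⟩
  let e : Fin k → Fin (3 * k) := fun i => ⟨i.1, by omega⟩
  have he : Function.Injective e := fun i i' hi => by
    simp only [e, Fin.mk.injEq] at hi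
    exact Fin.ext hi
  have hK : ∀ i i', K k i z (e i') = if i' = i then 1 else 0 := fun i i' => K_zero k i i'
  -- the Kraus operators of the successful runs are combinations of the `K_i`
  have h1 : ∀ a j, ∀ᵐ ω ∂Q.μ, ∀ L ∈ (Q.T ω).kraus (Q.V ω * incl (3 * k)),
      L a j = ∑ i, K k i a j * L z (e i) := by
    intro a j
    set F : Matrix (Fin (3 * k)) (Fin (3 * k)) ℂ := E a j - ∑ i, K k i a j • E z (e i) with hF
    have hfn : ∀ L, fn F L = L a j - ∑ i, K k i a j * L z (e i) := by
      intro L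
      rw [hF, fn_sub, fn_sum, fn_E]
      simp only [fn_E]
    obtain ⟨h2, h3⟩ := key Q (K k) q h F
    have h4 : ∀ i, fn F (K k i) = 0 := by
      intro i
      rw [hfn]
      simp only [hK, mul_ite, mul_one, mul_zero, Finset.sum_ite_eq', Finset.mem_univ, if_true,
        sub_self]
    have h5 : ∑ i, ‖fn F (K k i)‖ ^ 2 = 0 := by
      refine Finset.sum_eq_zero fun i _ => ?_
      rw [h4, norm_zero]
      norm_num
    rw [h5, mul_zero] at h3
    have hnn : ∀ l : List (Matrix (Fin (3 * k)) (Fin (3 * k)) ℂ), 0 ≤ sq F l := by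
      intro l
      refine List.sum_nonneg fun y hy => ?_
      obtain ⟨L, _, rfl⟩ := List.mem_map.mp hy
      positivity
    have h6 := (integral_eq_zero_iff_of_nonneg (fun ω => hnn _) h2).mp h3
    filter_upwards [h6] with ω hω L hL
    have h7 : ‖fn F L‖ ^ 2 ≤ sq F ((Q.T ω).kraus (Q.V ω * incl (3 * k))) := by
      refine List.single_le_sum (fun y hy => ?_) _ (List.mem_map.mpr ⟨L, hL, rfl⟩)
      obtain ⟨L', _, rfl⟩ := List.mem_map.mp hy
      positivity
    have h8 : sq F ((Q.T ω).kraus (Q.V ω * incl (3 * k))) = 0 := hω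
    rw [h8] at h7
    have h9 : fn F L = 0 := by
      have : ‖fn F L‖ ^ 2 = 0 := le_antisymm h7 (by positivity)
      exact norm_eq_zero.mp (pow_eq_zero_iff (two_ne_zero)  |>.mp this)
    rw [hfn] at h9
    exact sub_eq_zero.mp h9
  have h2 : ∀ᵐ ω ∂Q.μ, ∀ a j, ∀ L ∈ (Q.T ω).kraus (Q.V ω * incl (3 * k)),
      L a j = ∑ i, K k i a j * L z (e i) :=
    ae_all_iff.mpr fun a => ae_all_iff.mpr fun j => h1 a j
  have h3 : ∀ᵐ ω ∂Q.μ, ∑ i, sq (E z (e i)) ((Q.T ω).kraus (Q.V ω * incl (3 * k))) ≤
      2 ^ (R + 1) := by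
    filter_upwards [h2] with ω hω
    have h4 : ∀ L ∈ (Q.T ω).kraus (Q.V ω * incl (3 * k)), L = 0 ∨ 2 * k + 1 ≤ L.rank := by
      intro L hL
      have h5 : L = ∑ i, L z (e i) • K k i := by
        ext a j
        rw [hω a j L hL, Matrix.sum_apply]
        simp only [Matrix.smul_apply, smul_eq_mul, mul_comm]
      by_cases h6 : (fun i => L z (e i)) = 0
      · left
        rw [h5]
        refine Finset.sum_eq_zero fun i _ => ?_
        have : L z (e i) = 0 := congrFun h6 i
        rw [this, zero_smul]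
      · right
        rw [h5]
        exact rank_comb k _ h6
    have hr : 2 * (3 * k) < 3 * (2 * k + 1) := by omega
    have h7 := rowSum_bound hr z (Q.T ω) (Q.V ω * incl (3 * k)) (Q.valid ω)
      ((con_unitary (Q.unitary ω)).mul (con_incl _)) h4
    refine le_trans ?_ h7
    generalize (Q.T ω).kraus (Q.V ω * incl (3 * k)) = l
    have h8 : ∀ L : Matrix (Fin (3 * k)) (Fin (3 * k)) ℂ,
        ∑ i, ‖fn (E z (e i)) L‖ ^ 2 ≤ ∑ j, ‖L z j‖ ^ 2 := by
      intro L
      simp only [fn_E]
      calc ∑ i, ‖L z (e i)‖ ^ 2 = ∑ j ∈ Finset.univ.image e, ‖L z j‖ ^ 2 := by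
            rw [Finset.sum_image fun a _ b _ hab => he hab]
        _ ≤ _ := Finset.sum_le_sum_of_subset_of_nonneg (Finset.subset_univ _)
            fun _ _ _ => by positivity
    induction l with
    | nil => simp [sq, rowSum]
    | cons L l ih =>
        simp only [sq, rowSum, List.map_cons, List.sum_cons, Finset.sum_add_distrib] at ih ⊢
        exact add_le_add (h8 L) ih
  have h4 : ∫ ω, ∑ i, sq (E z (e i)) ((Q.T ω).kraus (Q.V ω * incl (3 * k))) ∂Q.μ = q * k := by
    rw [integral_finsetSum _ fun i _ => (key Q (K k) q h _).1]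
    simp only [(key Q (K k) q h _).2, fn_E, hK]
    rw [← Finset.mul_sum]
    congr 1
    simp [Finset.sum_ite_eq, apply_ite, ite_pow]
  rw [← h4]
  calc _ ≤ ∫ _, (2 : ℝ) ^ (R + 1) ∂Q.μ :=
        integral_mono_ae (integrable_finsetSum _ fun i _ => (key Q (K k) q h _).1)
          (integrable_const _) h3
    _ = 2 ^ (R + 1) := by simp

/-- For every `k ≥ 1` there is a channel in dimension `3 k` which no protocol with at most `R`
rounds simulates with success probability more than `2 ^ (R + 1) / k`. In particular the answer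
to Q1 is negative. -/
theorem result :
    (∀ k : ℕ, 1 ≤ k → ∃ Φ : Matrix (Fin (3 * k)) (Fin (3 * k)) ℂ →
      Matrix (Fin (3 * k)) (Fin (3 * k)) ℂ, IsChannel Φ ∧
        ∀ (R : ℕ) (Q : Protocol.{u} (3 * k) R) (q : ℝ), Simulates Q Φ q →
          q ≤ 2 ^ (R + 1) / k) ∧
    ¬ ∃ (c : ℝ) (R : ℕ), 0 < c ∧ ∀ d : ℕ, 2 ≤ d →
      ∀ Φ : Matrix (Fin d) (Fin d) ℂ → Matrix (Fin d) (Fin d) ℂ, IsChannel Φ →
        ∃ (Q : Protocol.{u} d R) (q : ℝ), c ≤ q ∧ Simulates Q Φ q := by
  have main : ∀ k : ℕ, 1 ≤ k → ∃ Φ : Matrix (Fin (3 * k)) (Fin (3 * k)) ℂ →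
      Matrix (Fin (3 * k)) (Fin (3 * k)) ℂ, IsChannel Φ ∧
        ∀ (R : ℕ) (Q : Protocol.{u} (3 * k) R) (q : ℝ), Simulates Q Φ q →
          q ≤ 2 ^ (R + 1) / k := by
    intro k hk
    refine ⟨fun X => ∑ i, K k i * X * (K k i)ᴴ, ⟨k, K k, K_sum k hk, fun X => rfl⟩, ?_⟩
    intro R Q q h
    rw [le_div_iff₀ (by exact_mod_cast hk)]
    exact bound hk Q q h
  refine ⟨main, ?_⟩
  rintro ⟨c, R, hc, h⟩
  obtain ⟨k, hk⟩ := exists_nat_gt ((2 : ℝ) ^ (R + 1) / c)
  have hk0 : (0 : ℝ) < k := lt_trans (by positivity) hk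
  have hk1 : 1 ≤ k := by
    have : 0 < k := by exact_mod_cast hk0
    omega
  obtain ⟨Φ, hΦ, hb⟩ := main k hk1
  obtain ⟨Q, q, hq, hs⟩ := h (3 * k) (by omega) Φ hΦ
  have h1 := hb R Q q hs
  rw [le_div_iff₀ hk0] at h1
  rw [div_lt_iff₀ hc] at hk
  nlinarith

end Pool.Agent.Results.MP_796113_mp.BoundedRounds
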